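import Pool.Agent.Helper52.MirrorTri

/-!
Dissecting a triangle that is neither right nor isosceles into oppositely oriented similar copies
of itself.
-/

namespace Pool.Agent.Results.MP_eb863e_co.OppositeDissection

open Pool.Agent.Helper37.Dis
open scoped ComplexConjugate

theorem angle_A : EuclideanGeometry.angle T0.r.val T0.p.val T0.q.val = Real.pi / 8 := by
  obtain ⟨h1, h2, h3⟩ := T0_vals
  rw [h1, h2, h3]
  have hs : √2 * √2 = 2 := Real.mul_self_sqrt (by norm_num)
  have hs0 : 0 < √2 := by positivity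
  unfold EuclideanGeometry.angle
  refine Real.injOn_cos ⟨InnerProductGeometry.angle_nonneg _ _, InnerProductGeometry.angle_le_pi _ _⟩
    ⟨by positivity, by linarith [Real.pi_pos]⟩ ?_
  rw [InnerProductGeometry.cos_angle, Real.cos_pi_div_eight]
  simp only [vsub_eq_sub, sub_zero]
  have n1 : ‖(⟨1 + √2, 1⟩ : ℂ)‖ ^ 2 = 4 + 2 * √2 := by
    rw [← Complex.normSq_eq_norm_sq, Complex.normSq_apply]
    simp only
    nlinarith
  have n2 : ‖((2 + √2 : ℝ) : ℂ)‖ = 2 + √2 := by
    rw [Complex.norm_real, Real.norm_eq_abs, abs_of_pos (by positivity)]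
  have i1 : inner ℝ (⟨1 + √2, 1⟩ : ℂ) ((2 + √2 : ℝ) : ℂ) = (1 + √2) * (2 + √2) := by
    rw [Complex.inner]
    simp
    ring
  rw [n2, i1]
  have hn : 0 < ‖(⟨1 + √2, 1⟩ : ℂ)‖ := by
    rw [norm_pos_iff]
    intro h
    have := congrArg Complex.im h
    simp at this
  have e1 : (1 + √2) * (2 + √2) / (‖(⟨1 + √2, 1⟩ : ℂ)‖ * (2 + √2)) =
      (1 + √2) / ‖(⟨1 + √2, 1⟩ : ℂ)‖ := by
    field_simp
  rw [e1]
  have hq : 0 < √(2 + √2) := by positivity
  have hq2 : √(2 + √2) ^ 2 = 2 + √2 := Real.sq_sqrt (by positivity)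
  have key : ((1 + √2) / ‖(⟨1 + √2, 1⟩ : ℂ)‖) ^ 2 = (√(2 + √2) / 2) ^ 2 := by
    rw [div_pow, div_pow, n1, hq2, div_eq_div_iff (by positivity) (by norm_num)]
    nlinarith
  exact (pow_left_inj₀ (by positivity) (by positivity) two_ne_zero).mp key

theorem angle_B : EuclideanGeometry.angle T0.p.val T0.q.val T0.r.val = Real.pi / 4 := by
  obtain ⟨h1, h2, h3⟩ := T0_vals
  rw [h1, h2, h3]
  have hs : √2 * √2 = 2 := Real.mul_self_sqrt (by norm_num)
  have hs0 : 0 < √2 := by positivity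
  unfold EuclideanGeometry.angle
  refine Real.injOn_cos ⟨InnerProductGeometry.angle_nonneg _ _, InnerProductGeometry.angle_le_pi _ _⟩
    ⟨by positivity, by linarith [Real.pi_pos]⟩ ?_
  rw [InnerProductGeometry.cos_angle, Real.cos_pi_div_four]
  simp only [vsub_eq_sub, zero_sub, norm_neg]
  have n1 : ‖(⟨1 + √2, 1⟩ : ℂ) - ((2 + √2 : ℝ) : ℂ)‖ = √2 := by
    rw [Complex.norm_def, Complex.normSq_apply]
    congr 1
    simp
    ring
  have n2 : ‖((2 + √2 : ℝ) : ℂ)‖ = 2 + √2 := by
    rw [Complex.norm_real, Real.norm_eq_abs, abs_of_pos (by positivity)]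
  have i1 : inner ℝ (-((2 + √2 : ℝ) : ℂ)) ((⟨1 + √2, 1⟩ : ℂ) - ((2 + √2 : ℝ) : ℂ)) = 2 + √2 := by
    rw [Complex.inner]
    simp
    ring
  rw [n1, n2, i1]
  field_simp
  linarith

theorem angle_C : EuclideanGeometry.angle T0.q.val T0.r.val T0.p.val = 5 * Real.pi / 8 := by
  obtain ⟨h1, h2, h3⟩ := T0_vals
  have hs0 : 0 < √2 := by positivity
  have hne : T0.q.val ≠ T0.p.val := by
    rw [h1, h2]
    intro h
    have := congrArg Complex.re h
    simp at this
    linarith
  have h := EuclideanGeometry.angle_add_angle_add_angle_eq_pi (p₁ := T0.p.val) (p₂ := T0.q.val)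
    T0.r.val hne
  rw [angle_A, angle_B] at h
  linarith

/-- There is a triangle, with angles `π/8`, `π/4`, `5π/8` and hence neither right nor isosceles,
that can be dissected into finitely many images of itself under orientation-reversing
similarities `z ↦ p * conj z + q`. -/
theorem result : ∃ A B C : ℂ,
    AffineIndependent ℝ ![A, B, C] ∧
    (EuclideanGeometry.angle C A B = Real.pi / 8 ∧ EuclideanGeometry.angle A B C = Real.pi / 4 ∧
      EuclideanGeometry.angle B C A = 5 * Real.pi / 8) ∧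
    (dist A B ≠ dist B C ∧ dist B C ≠ dist C A ∧ dist C A ≠ dist A B) ∧
    ∃ (n : ℕ) (p q : Fin n → ℂ), (∀ i, p i ≠ 0) ∧
      (∀ i j, i ≠ j →
        Disjoint (interior ((fun z => p i * conj z + q i) '' convexHull ℝ {A, B, C}))
          (interior ((fun z => p j * conj z + q j) '' convexHull ℝ {A, B, C}))) ∧
      ⋃ i, (fun z => p i * conj z + q i) '' convexHull ℝ {A, B, C} = convexHull ℝ {A, B, C} :=
  have h := Pool.Agent.Helper52.MirrorTri.main
  ⟨T0.p.val, T0.q.val, T0.r.val, h.1, ⟨angle_A, angle_B, angle_C⟩, h.2.1, h.2.2.2⟩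

end Pool.Agent.Results.MP_eb863e_co.OppositeDissection
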